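import Pool.Agent.H84.S2.Tg
import Pool.Agent.H86.SF.LOC
import Pool.Agent.H48.SF.LCS
import Pool.Agent.H11.S2.LSN

/-!
# s2l_modules, row LS2: contact at a smooth point of the curve
-/

set_option autoImplicit false

namespace Pool.Agent.H37.S2

open MvPolynomial SC
open Pool.Agent.H27.LV (ge deg poleOrder canDeg)
open Pool.Agent.H84.SM (cr dt dp)
open Pool.Agent.H3.SF (Itg Bb BB Hm eu grd hes Sfc Crd Cnn Crf Prm nv)
open Pool.Agent.H84.SF Pool.Agent.H3.S2 Pool.Agent.H84.S2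

/-- the first coefficient of the equation in the frame -/
theorem bloc_zero {O : Type} [CommRing O] {k : Type} [CommRing k] [Algebra k O]
    (dX dG : Derivation k O O) (p : Fin 3 → O) (A : O) (b : MvPolynomial (Fin 3) O)
    (hb : b.IsHomogeneous 3) : bloc dX dG p A b 0 =
      A * dt p (fun i => dX (p i)) (fun i => dX (dX (p i))) + eval (fun i => dX (p i)) b := by
  rw [← Pool.Agent.H70.SF.bcy_zero (fun i => dX (p i)) (fun i => dG (p i)) b hb]
  rfl

theorem pf_LS2 (hOSF : T_OSF) (hHMK : T_HMK) (hCHK : T_CHK) (hBDV : T_BDV) (hLC2 : T_LC2)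
    (hTRY : T_TRY) (hLFT : T_LFT) (hEQS : T_EQS) (hPRX : T_PRX) (hPRI : T_PRI) (hDSH : T_DSH)
    (hSMT : T_SMT) (hVFO : T_VFO) (hJB2 : T_JB2) : T_LS2 := by
  intro k F σ _ _ _ _ _ _ _ X u dd J j0 m G GP sg S hY hm hCr hGP hval α A b hC hSA s hs hc hGs0
    hSm hDv
  have hm1 : 1 ≤ m := le_trans one_le_two hm
  obtain ⟨hN, L0, L1, cX, cG, ε, x1, Gs, dX, dG, hl0, hl1, hv0, hv1, hder, heps, heX, heG, hfrm,
    hdX, hdG⟩ := hOSF k F σ X s dd GP m hc hs (Pool.Agent.H48.SF.lin_dd hY) hm1 hGP hGs0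
      (hSMT k F σ X GP s hSm)
  have hFr : FrO X s dd m GP L0 L1 cX cG ε x1 Gs dX dG :=
    ⟨hl0, hl1, hv0, hv1, hGs0, hder, heps, heX, heG, hfrm, hdX, hdG⟩
  have hLne : aeval X L0 ≠ 0 := fun h => hv0 (hc.pt L0 h)
  obtain ⟨p, A1, b1, hL⟩ := hLFT k F σ X u dd J j0 hY s hc L0 hl0 hv0 m G α A b hC
  choose U hUh hU using hY.ulin
  have hbU : ∀ P : MvPolynomial (Fin 3) k, aeval X (aeval U P) = aeval u P := by
    intro P
    have h1 : ((aeval X : MvPolynomial σ k →ₐ[k] F).comp (aeval U)) = aeval u := by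
      refine MvPolynomial.algHom_ext fun i => ?_
      rw [AlgHom.comp_apply, aeval_X, aeval_X, hU]
    rw [← h1]
    rfl
  have hUP : ∀ (e : ℕ) (P : MvPolynomial (Fin 3) k), P.IsHomogeneous e →
      (aeval U P : MvPolynomial σ k).IsHomogeneous e := by
    intro e P hP
    have h1 := hP.aeval U hUh
    rw [one_mul] at h1
    exact h1
  have hbe : ∀ P : MvPolynomial (Fin 3) k, eval s (aeval U P) = eval (fun l => eval s (U l)) P := by
    intro P
    exact eval₂Hom_bind₁ (RingHom.id k) s U P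
  have hmk : ∀ (e : ℕ) (P : MvPolynomial (Fin 3) k), P.IsHomogeneous e →
      ∃ q : Os X s, (q : F) * aeval X L0 ^ e = aeval u P := by
    intro e P hP
    obtain ⟨q, hq⟩ := Pool.Agent.H70.SF.mkO X s L0 hl0 hv0 hLne e (aeval U P) (hUP e P hP)
    exact ⟨q, by rw [hq, hbU]⟩
  have hGs' : (Gs : F) * aeval X L0 ^ m = G := heG.trans hval
  obtain ⟨js, Ss, hjs, hSs, hdvd⟩ := hDSH k F σ X u dd J j0 m G sg S hY hm hCr s hs hc L0 hl0
    hv0 cX dX hdX hder.x0 (by rw [← hval]; exact hder.x2) Gs hGs' α A b hC p A1 b1 hL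
  -- divisibility
  obtain ⟨qA, hqA⟩ := hmk α A hC.hA
  obtain ⟨hsα, A2, hA2, hAA⟩ := Pool.Agent.H11.S2.quot_hom hC.hA hCr.Sh hC.ne hSA
  obtain ⟨q2, hq2⟩ := hmk (α - sg) A2 hA2
  have hA1 : A1 = js * qA := by
    apply Subtype.ext
    apply mul_right_cancel₀ (pow_ne_zero (α + j0) hLne)
    rw [hL.hA, ← hjs, ← hqA]
    change _ = (js : F) * (qA : F) * _
    ring
  have hA1' : A1 = Ss * (js * q2) := by
    apply Subtype.ext
    apply mul_right_cancel₀ (pow_ne_zero (α + j0) hLne)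
    have h1 : aeval X L0 ^ (α + j0) = aeval X L0 ^ sg * aeval X L0 ^ j0 *
        aeval X L0 ^ (α - sg) := by
      rw [← pow_add, ← pow_add]
      congr 1
      omega
    have h2 : aeval u A = aeval u S * aeval u A2 := by rw [hAA, map_mul]
    rw [hL.hA, h2, ← hjs, ← hSs, ← hq2, h1]
    change _ = (Ss : F) * ((js : F) * (q2 : F)) * _
    ring
  have := hN
  have hndvd : ¬ Gs ∣ A1 := by
    rintro ⟨h, hh⟩
    apply hDv
    obtain ⟨d, a', b', ⟨ha', hb', hab⟩, hb0⟩ := h.2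
    refine ⟨d + m, d + (α + j0), a' * L0 ^ (α + j0), b' * L0 ^ m, ?_, ?_, ?_, ?_⟩
    · have h1 := ha'.mul (hl0.pow (α + j0))
      rwa [one_mul] at h1
    · have h1 := hb'.mul (hl0.pow m)
      rwa [one_mul] at h1
    · rw [map_mul, map_pow]
      exact mul_ne_zero hb0 (pow_ne_zero m hv0)
    · have h1 : (A1 : F) = (Gs : F) * (h : F) := by rw [hh]; rfl
      rw [map_mul, map_mul, map_mul, map_pow, map_pow, ← hL.hA, ← hab, ← heG, h1]
      ring
  have hprime := (hPRI k (Os X s) ε x1 Gs dX dG hfrm).1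
  have hdv : Gs ∣ bloc dX dG p A1 b1 0 := by
    rw [bloc_zero dX dG p A1 b1 hL.hh]
    rcases hprime.dvd_or_dvd hdvd with h | h
    · exact h
    · exfalso
      rcases hprime.dvd_or_dvd h with h1 | h1
      · exact hndvd ((hprime.dvd_of_dvd_pow h1).trans ⟨qA, hA1⟩)
      · exact hndvd ((hprime.dvd_of_dvd_pow h1).trans ⟨js * q2, hA1'⟩)
  obtain ⟨C0, hC01, hC0⟩ := hLC2 k (Os X s) ε x1 Gs dX dG hfrm (Aloc dX dG p A1)
    (bloc dX dG p A1 b1) hdv
  have key : ∀ (K : Type) [Field K] [Algebra k K] [Algebra.EssFiniteType k K],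
      Algebra.trdeg k K = 1 → ∀ (φ : Bb k u →ₐ[k] K) (x : Fin 3 → K) (g : K)
      (Sp : Finset (DV k K)), Crt u J m G sg S φ x g Sp → Prm φ → aeval x A ≠ 0 →
      ∀ D : Derivation k K K, D ≠ 0 → ∀ B : MvPolynomial (Fin 3) K, VM3 u φ b B → EqC D x A B →
      ∀ (v : DV k K) (c : K), c ≠ 0 → v.ord c = poleOrder v x →
      (∀ (i : σ) (b : Bb k u), (b : F) = X i → ge v 1 (c * φ b - algebraMap k K (s i))) →
      0 ≤ nv v x α (aeval x A) ∧ 0 ≤ nv v x j0 (aeval x J) ∧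
      (nv v x m g ≤ nv v x α (aeval x A) + 4 * nv v x j0 (aeval x J) ∨ nv v x m g ≤ C0) ∧
      (eval (fun l => eval s (U l)) A ≠ 0 → nv v x m g ≤ 1) := by
    intro K _ _ _ htr φ x g Sp hcr hP hA0 D hD0 B hV hEq v c' hc0 hvc hcen
    obtain ⟨z, hz⟩ : ∃ z : σ → K, z = fun i => φ ⟨X i, hY.Xint i⟩ := ⟨_, rfl⟩
    have hzX : ∀ (i : σ) (b : Bb k u), (b : F) = X i → φ b = z i := by
      intro i b hb
      rw [hz]
      exact congrArg φ (Subtype.ext hb)
    have hval' := Pool.Agent.H11.S2.val_z hY.Xint φ z hz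
    have hBb : ∀ f : MvPolynomial σ k, ∃ b : Bb k u, (b : F) = aeval X f := by
      intro f
      exact ⟨⟨_, Pool.Agent.H11.S2.aeval_itg X u hY.Xint f⟩, rfl⟩
    have hz0 : ∀ f : MvPolynomial σ k, aeval X f = 0 → aeval z f = 0 := by
      intro f hf
      rw [← hval' f 0 (by rw [hf]; rfl), map_zero]
    have hcen' : ∀ i, ge v 1 (c' * z i - algebraMap k K (s i)) := by
      intro i
      rw [hz]
      exact hcen i _ rfl
    obtain ⟨y, hy1, hy2, hy3⟩ := hHMK k F σ K X s hc z hz0 v c' hc0 hcen'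
    have hH : HmK X s z ε v y := ⟨hy1, hy2, hy3 ε heps⟩
    have hbd := hBDV k K htr D v
    have hch := hCHK k (Os X s) K ε x1 Gs dX dG hfrm y v hy2 (hy3 ε heps) D hbd
    have hzL : aeval z L0 ≠ 0 := (Pool.Agent.H86.SF.nv_zero (x := x) hc0 hvc hcen' hl0 hv0).1
    have heq := hEQS k F σ K X u dd J j0 hY s hc L0 hl0 hv0 m G α A b hC p A1 b1 hL φ x z
      hcr.cx hzX hzL hcr.Jx ε v y hH D B hV hEq
    have hK := hTRY k (Os X s) K x1 Gs dX dG y D hch p A1 b1 hL.hh heq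
    have hgen := hPRX k F σ K X u dd J j0 hY s hc L0 hl0 hv0 φ x z hcr.cx hzX hcr.one hzL
      hcr.Jx hP ε v y hH
    have hzU : ∀ l, aeval z (U l) = x l := by
      intro l
      obtain ⟨b, hb⟩ := hBb (U l)
      rw [← hval' (U l) b hb]
      exact hcr.cx l b (hb.trans (hU l))
    have hbz : ∀ P : MvPolynomial (Fin 3) k, aeval z (aeval U P) = aeval x P := by
      intro P
      have h1 : ((aeval z : MvPolynomial σ k →ₐ[k] K).comp (aeval U)) = aeval x := by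
        refine MvPolynomial.algHom_ext fun i => ?_
        rw [AlgHom.comp_apply, aeval_X, aeval_X, hzU]
      rw [← h1]
      rfl
    obtain ⟨hj1, hj2⟩ := hJB2 k F σ K htr X u dd J j0 hY m GP hm1 hGP s hc L0 L1 cX cG ε x1 Gs
      dX dG hFr α A b hC.hA p A1 b1 hL φ x hcr.cx hcr.one hcr.Jx hA0 v c' hc0 hvc hcen z hzX y hH
    have hgz : aeval z GP = g := by
      obtain ⟨b, hb⟩ := hBb GP
      rw [← hval' GP b hb]
      exact hcr.gx b (hb.trans hval)
    obtain ⟨hG1, hG2⟩ := hVFO k F σ K X s ε v x z y hH c' hc0 hvc hcen' L0 hl0 hv0 m GP Gs hGP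
      heG (by rw [hgz]; exact hcr.ne)
    rw [hgz] at hG2
    obtain ⟨hqA1, hqA2⟩ := hVFO k F σ K X s ε v x z y hH c' hc0 hvc hcen' L0 hl0 hv0 α
      (aeval U A) qA (hUP α A hC.hA) (by rw [hqA, hbU]) (by rw [hbz]; exact hA0)
    rw [hbz] at hqA2
    obtain ⟨hjs1, hjs2⟩ := hVFO k F σ K X s ε v x z y hH c' hc0 hvc hcen' L0 hl0 hv0 j0
      (aeval U J) js (hUP j0 J hY.Jh) (by rw [hjs, hbU]) (by rw [hbz]; exact hcr.Jx)
    rw [hbz] at hjs2
    have hnA : 0 ≤ v.ord (y qA) := (hy2 qA).resolve_left hqA1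
    have hnJ : 0 ≤ v.ord (y js) := (hy2 js).resolve_left hjs1
    rw [hqA2] at hnA
    rw [hjs2] at hnJ
    have hor := hC0 K htr D hD0 y v hy2 (hy3 ε heps) hG1 hj1 hgen hK
    rw [hG2] at hor
    refine ⟨hnA, hnJ, hor.imp (fun h => h.trans hj2) id, ?_⟩
    intro hA0'
    have hJ0' : eval (fun l => eval s (U l)) J ≠ 0 := by
      intro h0
      obtain ⟨A', hA'⟩ := hC.dvd
      apply hA0'
      rw [hA', map_mul, h0, zero_mul]
    have e1 := (Pool.Agent.H86.SF.nv_zero (x := x) hc0 hvc hcen' (hUP α A hC.hA)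
      (by rw [hbe]; exact hA0')).2
    have e2 := (Pool.Agent.H86.SF.nv_zero (x := x) hc0 hvc hcen' (hUP j0 J hY.Jh)
      (by rw [hbe]; exact hJ0')).2
    rw [hbz] at e1 e2
    rw [e1, e2] at hj2
    have h1 : ε (Aloc dX dG p A1) ≠ 0 := by
      intro h2
      have h3 := (hy3 ε heps _ h2).resolve_left hj1
      linarith
    have h4 := hC01 h1
    rcases hor with h | h
    · linarith
    · rw [h4] at h
      exact_mod_cast h
  refine ⟨⟨C0, ?_⟩, ?_⟩
  · intro K _ _ _ htr φ x g Sp hcr hP hA0 D hD0 B hV hEq v c' hc0 hvc hcen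
    obtain ⟨h1, h2, h3, -⟩ := key K htr φ x g Sp hcr hP hA0 D hD0 B hV hEq v c' hc0 hvc hcen
    have h4 : (0 : ℤ) ≤ C0 := Int.natCast_nonneg _
    rcases h3 with h | h <;> linarith
  · rintro ⟨U', hU', hA'⟩ K _ _ _ htr φ x g Sp hcr hP hA0 D hD0 B hV hEq v c' hc0 hvc hcen
    obtain ⟨h1, h2, -, h3⟩ := key K htr φ x g Sp hcr hP hA0 D hD0 B hV hEq v c' hc0 hvc hcen
    have h4 : (fun l => eval s (U' l)) = fun l => eval s (U l) := by
      funext l
      have h5 := hc.pt (U' l - U l) (by rw [map_sub, hU', hU, sub_self])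
      rw [map_sub] at h5
      exact sub_eq_zero.1 h5
    rw [h4] at hA'
    have h5 := h3 hA'
    push_cast
    linarith

end Pool.Agent.H37.S2
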