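import Pool.Agent.H84.S2.Tg
import Pool.Agent.H86.SF.LOC

/-!
# s2l_modules, row VFO: the order of a form
-/

set_option autoImplicit false

namespace Pool.Agent.H37.S2

open MvPolynomial SC
open Pool.Agent.H27.LV (ge deg poleOrder canDeg)
open Pool.Agent.H84.SM (cr dt dp)
open Pool.Agent.H3.SF (Itg Bb BB Hm eu grd hes Sfc Crd Cnn Crf Prm nv)
open Pool.Agent.H84.SF Pool.Agent.H3.S2 Pool.Agent.H84.S2

theorem pf_VFO : T_VFO := by
  intro k F σ K _ _ _ _ _ _ X s ε v x z y hH c hc0 hvc hcen L0 hl0 hv0 e f h hf hh hfz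
  obtain ⟨hz1, hz2⟩ := Pool.Agent.H86.SF.nv_zero (x := x) hc0 hvc hcen hl0 hv0
  have h1 : v.ord (aeval z L0) + ((1 : ℕ) : ℤ) * poleOrder v x = 0 := hz2
  have h2 := hH.val h e f (L0 ^ e) ⟨hf, by simpa using hl0.pow e, by rw [map_pow]; exact hh⟩
  rw [map_pow] at h2
  have h3 : y h ≠ 0 := by
    intro h0
    rw [h0, zero_mul] at h2
    exact hfz h2.symm
  refine ⟨h3, ?_⟩
  have h4 := v.ord_mul' h3 (pow_ne_zero e hz1)
  rw [h2, v.ord_pow] at h4
  change v.ord (y h) = v.ord (aeval z f) + (e : ℤ) * poleOrder v x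
  rw [h4]
  have h5 : v.ord (aeval z L0) = -(poleOrder v x : ℤ) := by
    push_cast at h1
    linarith
  rw [h5]
  ring

end Pool.Agent.H37.S2
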